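import Mathlib

set_option autoImplicit false

namespace Pool.Agent.Results.MP_67ce71_gt.Cocount

open Set Filter Topology

/-- Total preorders. -/
def IsTotalPre {X : Type*} (r : X → X → Prop) : Prop :=
  (∀ x, r x x) ∧ (∀ x y z, r x y → r y z → r x z) ∧ ∀ x y, r x y ∨ r y x

/-- The set `U(x)`. -/
def up {X : Type*} (r : X → X → Prop) (x : X) : Set X := {y | r x y ∧ ¬ r y x}

/-- The set `L(x)`. -/
def low {X : Type*} (r : X → X → Prop) (x : X) : Set X := {y | r y x ∧ ¬ r x y}

/-- Utility representations. -/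
def Rep {X : Type*} (r : X → X → Prop) (u : X → ℝ) : Prop := ∀ x y, r x y ↔ u x ≤ u y

/-- The semicontinuous representability property. -/
def SRP (X : Type*) [TopologicalSpace X] : Prop :=
  (∀ r : X → X → Prop, IsTotalPre r → (∀ x, IsOpen (up r x)) →
    ∃ u, Rep r u ∧ ∀ a, IsOpen {x | a < u x}) ∧
  (∀ r : X → X → Prop, IsTotalPre r → (∀ x, IsOpen (low r x)) →
    ∃ u, Rep r u ∧ ∀ a, IsOpen {x | u x < a})

/-- The continuous representability property. -/
def CRP (X : Type*) [TopologicalSpace X] : Prop :=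
  ∀ r : X → X → Prop, IsTotalPre r → (∀ x, IsOpen (up r x)) → (∀ x, IsOpen (low r x)) →
    ∃ u, Rep r u ∧ Continuous u

/-- The hereditary continuous representability property. -/
def HCRP (X : Type*) [TopologicalSpace X] : Prop := ∀ Y : Set X, Y.Nonempty → CRP Y

def W : Type := (Cardinal.aleph.{0} 1).ord.ToType

noncomputable instance : LinearOrder W := inferInstanceAs (LinearOrder (Cardinal.aleph.{0} 1).ord.ToType)

lemma unc : Uncountable W := by
  rw [← Cardinal.aleph0_lt_mk_iff]
  show _ < Cardinal.mk (Cardinal.aleph.{0} 1).ord.ToType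
  simp [Cardinal.aleph0_lt_aleph_one]

lemma cnt (x : W) : (Iic x).Countable := by
  have : (Iio x).Countable := by
    rw [← Cardinal.le_aleph0_iff_set_countable, ← Cardinal.lt_aleph_one_iff]
    exact Cardinal.mk_Iio_ord_toType x
  rw [← Iio_insert]
  exact this.insert _

instance : TopologicalSpace W where
  IsOpen S := S.Nonempty → Sᶜ.Countable
  isOpen_univ := fun _ => by simp
  isOpen_inter := fun s t hs ht h => by
    rw [compl_inter]
    exact (hs (h.mono inter_subset_left)).union (ht (h.mono inter_subset_right))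
  isOpen_sUnion := by
    rintro S hS ⟨x, W, hW, hx⟩
    exact (hS W hW ⟨x, hx⟩).mono (compl_subset_compl.2 (subset_sUnion_of_mem hW))

lemma rep_count {Y : Type*} [Countable Y] {r : Y → Y → Prop} (h : IsTotalPre r) : ∃ u, Rep r u := by
  classical
  letI : Preorder Y := { le := r, le_refl := h.1, le_trans := h.2.1 }
  haveI : Std.Total (α := Y) (· ≤ ·) := ⟨h.2.2⟩
  haveI : Countable (Antisymmetrization Y (· ≤ ·)) := Quotient.countable
  obtain ⟨e⟩ := Order.embedding_from_countable_to_dense (Antisymmetrization Y (· ≤ ·)) ℝ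
  exact ⟨fun y => e (toAntisymmetrization _ y), fun x y => by
    rw [e.le_iff_le, toAntisymmetrization_le_toAntisymmetrization_iff]; rfl⟩

theorem result : ∃ (X : Type) (_ : TopologicalSpace X), T1Space X ∧ HCRP X ∧ ¬ SRP X := by
  haveI := unc
  refine ⟨W, inferInstance, ⟨fun x => ⟨fun _ => by simp⟩⟩, fun Y _ r hr hu hl => ?_, fun h => ?_⟩
  · by_cases hY : Y.Countable
    · haveI := hY.to_subtype
      obtain ⟨u, h⟩ := rep_count hr
      haveI : DiscreteTopology Y := by
        rw [discreteTopology_iff_isOpen_singleton]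
        intro y
        refine isOpen_induced_iff.2 ⟨(Y \ {y.1})ᶜ, fun _ => ?_, ?_⟩
        · rw [compl_compl]; exact hY.mono diff_subset
        · ext z; simp [Subtype.ext_iff]
      exact ⟨u, h, continuous_of_discreteTopology⟩
    · have key : ∀ S T : Set Y, IsOpen S → IsOpen T → S.Nonempty → T.Nonempty → (S ∩ T).Nonempty := by
        rintro _ _ ⟨S, hS, rfl⟩ ⟨T, hT, rfl⟩ ⟨a, ha⟩ ⟨b, hb⟩
        by_contra hh
        apply hY
        refine ((hS ⟨a, ha⟩).union (hT ⟨b, hb⟩)).mono fun y hy => ?_
        by_contra h2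
        simp only [mem_union, mem_compl_iff, not_or, not_not] at h2
        exact hh ⟨⟨y, hy⟩, h2⟩
      have all : ∀ x y, r x y := by
        by_contra hh
        push Not at hh
        obtain ⟨y, x, hyx⟩ := hh
        have hxy : r x y := (hr.2.2 x y).resolve_right hyx
        obtain ⟨z, hz1, hz2⟩ := key _ _ (hu x) (hl y) ⟨y, hxy, hyx⟩ ⟨x, hxy, hyx⟩
        obtain ⟨w, hw1, hw2⟩ := key _ _ (hu z) (hl z) ⟨y, hz2⟩ ⟨x, hz1⟩
        exact hw1.2 hw2.1
      exact ⟨fun _ => 0, fun x y => by simp [all x y], continuous_const⟩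
  · obtain ⟨u, hu, -⟩ := h.1 (· ≤ ·) ⟨le_refl, fun _ _ _ => le_trans, le_total⟩ (fun x _ =>
      (cnt x).mono fun y hy => by
        by_contra h2
        exact hy ⟨(not_le.1 h2).le, h2⟩)
    have hs : ∀ x : W, ∃ y, x < y ∧ ∀ z, x < z → y ≤ z := by
      intro x
      have hne : (Iic x)ᶜ.Nonempty := by
        rw [nonempty_compl]
        intro e
        exact not_countable (countable_univ_iff.1 (e ▸ cnt x))
      haveI : WellFoundedLT W := inferInstanceAs (WellFoundedLT (Cardinal.aleph.{0} 1).ord.ToType)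
      obtain ⟨y, hy, hm⟩ := wellFounded_lt.has_min _ hne
      exact ⟨y, not_le.1 hy, fun z hz => not_lt.1 (hm z (not_le.2 hz))⟩
    choose s h1 h2 using hs
    have lt : ∀ x y : W, x < y → u x < u y := fun x y h => not_le.1 fun h' => not_le.2 h ((hu y x).2 h')
    choose q hq using fun x => exists_rat_btwn (lt x _ (h1 x))
    have : StrictMono q := fun x y hxy => by
      have : (q x : ℝ) < q y := (hq x).2.trans_le (((hu _ _).1 (h2 x y hxy)).trans (hq y).1.le)
      exact_mod_cast this
    exact not_countable this.injective.countable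

end Pool.Agent.Results.MP_67ce71_gt.Cocount
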